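import Mathlib

open scoped InnerProductSpace ENNReal

namespace Pool.Agent.W_MP_c6f870_an

variable {E : Type*} [NormedAddCommGroup E] [InnerProductSpace ℂ E] [CompleteSpace E]

/-- norm inequality from positivity of the self-commutator -/
theorem norm_adjoint_le {F : Type*} [NormedAddCommGroup F] [InnerProductSpace ℂ F]
    [CompleteSpace F] (S : F →L[ℂ] F) (h : (star S * S - S * star S).IsPositive) (x : F) :
    ‖(star S) x‖ ^ 2 ≤ ‖S x‖ ^ 2 := by
  have h1 := h.re_inner_nonneg_left x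
  have h2 : ⟪(star S * S - S * star S) x, x⟫_ℂ = ⟪S x, S x⟫_ℂ - ⟪(star S) x, (star S) x⟫_ℂ := by
    have e : (star S * S - S * star S) x = (star S) (S x) - S ((star S) x) := rfl
    rw [e, inner_sub_left, ContinuousLinearMap.star_eq_adjoint,
      ContinuousLinearMap.adjoint_inner_left, ContinuousLinearMap.adjoint_inner_right]
  rw [h2] at h1
  simp only [map_sub] at h1
  rw [inner_self_eq_norm_sq, inner_self_eq_norm_sq] at h1
  linarith

section shift

set_option linter.unusedSectionVars false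

variable {A : ℕ → E →L[ℂ] E} {T : lp (fun _ : ℕ => E) 2 →L[ℂ] lp (fun _ : ℕ => E) 2}

/-- the coordinates of a weighted shift -/
structure IsShift (A : ℕ → E →L[ℂ] E) (T : lp (fun _ : ℕ => E) 2 →L[ℂ] lp (fun _ : ℕ => E) 2) :
    Prop where
  zero : ∀ x, T x 0 = 0
  succ : ∀ x n, T x (n + 1) = A n (x n)

theorem IsShift.adjoint (hT : IsShift A T) (hA : ∀ n, ∀ v w, ⟪A n v, w⟫_ℂ = ⟪v, A n w⟫_ℂ)
    (x : lp (fun _ : ℕ => E) 2) (n : ℕ) : (star T) x n = A n (x (n + 1)) := by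
  refine ext_inner_left ℂ (fun v => ?_)
  have h1 : ⟪v, (star T) x n⟫_ℂ = ⟪lp.single 2 n v, (star T) x⟫_ℂ := by
    rw [lp.inner_single_left]
  have h2 : T (lp.single 2 n v) = lp.single 2 (n + 1) (A n v) := by
    apply lp.ext
    funext m
    rcases m with _ | m
    · rw [hT.zero]
      rw [lp.single_apply_ne _ _ _ (by omega)]
    · rw [hT.succ]
      by_cases hm : m = n
      · subst hm
        rw [lp.single_apply_self, lp.single_apply_self]
      · rw [lp.single_apply_ne _ _ _ hm, lp.single_apply_ne _ _ _ (by omega), map_zero]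
  rw [h1, ContinuousLinearMap.star_eq_adjoint, ContinuousLinearMap.adjoint_inner_right, h2,
    lp.inner_single_left, hA]

theorem coe_add_smul (x y : lp (fun _ : ℕ => E) 2) (s : ℂ) (n : ℕ) :
    (x + s • y : lp (fun _ : ℕ => E) 2) n = x n + s • y n := rfl

theorem quad_apply (s : ℂ) (x : lp (fun _ : ℕ => E) 2) :
    (T + s • T ^ 2) x = T x + s • T (T x) := by
  rw [pow_two]; rfl

theorem IsShift.quad_zero (hT : IsShift A T) (s : ℂ) (x : lp (fun _ : ℕ => E) 2) :
    (T + s • T ^ 2) x 0 = 0 := by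
  rw [quad_apply, coe_add_smul, hT.zero, hT.zero, smul_zero, add_zero]

theorem IsShift.quad_one (hT : IsShift A T) (s : ℂ) (x : lp (fun _ : ℕ => E) 2) :
    (T + s • T ^ 2) x 1 = A 0 (x 0) := by
  rw [quad_apply, coe_add_smul]
  have h := hT.succ x 0
  have h' := hT.succ (T x) 0
  rw [hT.zero] at h'
  simp only [zero_add] at h h'
  rw [h, h', map_zero, smul_zero, add_zero]

theorem IsShift.quad_succ (hT : IsShift A T) (s : ℂ) (x : lp (fun _ : ℕ => E) 2) (n : ℕ) :
    (T + s • T ^ 2) x (n + 2) = A (n + 1) (x (n + 1) + s • A n (x n)) := by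
  rw [quad_apply, coe_add_smul, hT.succ x (n + 1), hT.succ (T x) (n + 1), hT.succ x n, map_add,
    map_smul]

theorem IsShift.quad_star (hT : IsShift A T) (hA : ∀ n, ∀ v w, ⟪A n v, w⟫_ℂ = ⟪v, A n w⟫_ℂ)
    (s : ℝ) (x : lp (fun _ : ℕ => E) 2) (n : ℕ) :
    (star (T + (s : ℂ) • T ^ 2)) x n = A n (x (n + 1) + (s : ℂ) • A (n + 1) (x (n + 2))) := by
  have : star (T + (s : ℂ) • T ^ 2) = star T + (s : ℂ) • (star T) ^ 2 := by
    rw [star_add, star_smul, star_pow]
    simp
  rw [this, quad_apply, coe_add_smul, hT.adjoint hA, hT.adjoint hA, hT.adjoint hA, map_add,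
    map_smul]

theorem norm_sq_eq_sum (x : lp (fun _ : ℕ => E) 2) (S : Finset ℕ) (hS : ∀ n ∉ S, x n = 0) :
    ‖x‖ ^ 2 = ∑ n ∈ S, ‖x n‖ ^ 2 := by
  have h := lp.norm_rpow_eq_tsum (p := 2) (by simp) x
  simp only [ENNReal.toReal_ofNat, Real.rpow_ofNat] at h
  rw [h]
  exact tsum_eq_sum (fun n hn => by rw [hS n hn]; simp)

theorem sum_le_norm_sq (x : lp (fun _ : ℕ => E) 2) (S : Finset ℕ) :
    ∑ n ∈ S, ‖x n‖ ^ 2 ≤ ‖x‖ ^ 2 := by
  have h := lp.sum_rpow_le_norm_rpow (p := 2) (by simp) x S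
  simpa only [ENNReal.toReal_ofNat, Real.rpow_ofNat] using h

end shift

end Pool.Agent.W_MP_c6f870_an
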