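import Pool.Agent.Results.MP_c6f870_an.QuadraticPropagation

/-!
Sanity check, not used by the hand-in: for bounded weights the matrix-valued weighted shift exists
as a bounded operator, so the hypothesis `IsMatrixShift A T` of the result is satisfiable.
-/

open scoped InnerProductSpace ENNReal Matrix ComplexOrder

namespace Pool.Agent.W_MP_c6f870_an

open Pool.Agent.Results.MP_c6f870_an.QuadraticPropagation

/-- The sequence `(0, A₀ x₀, A₁ x₁, ...)`. -/
def shiftSeq {p : ℕ} (A : ℕ → Matrix (Fin p) (Fin p) ℂ) (x : ℕ → EuclideanSpace ℂ (Fin p)) :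
    ℕ → EuclideanSpace ℂ (Fin p)
  | 0 => 0
  | n + 1 => WithLp.toLp 2 (A n *ᵥ (x n).ofLp)

/-- The operator norms of the weights are bounded. -/
def BoundedWeights {p : ℕ} (A : ℕ → Matrix (Fin p) (Fin p) ℂ) : Prop :=
  ∃ C : ℝ, ∀ n, ‖Matrix.toEuclideanCLM (n := Fin p) (𝕜 := ℂ) (A n)‖ ≤ C

theorem shiftSeq_mem {p : ℕ} (A : ℕ → Matrix (Fin p) (Fin p) ℂ) (hA : BoundedWeights A)
    (x : SeqSpace p) : Memℓp (shiftSeq A x) 2 := by
  obtain ⟨C, hC⟩ := hA
  have hx := (lp.memℓp x).summable (by simp)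
  simp only [ENNReal.toReal_ofNat, Real.rpow_ofNat] at hx
  apply memℓp_gen
  simp only [ENNReal.toReal_ofNat, Real.rpow_ofNat]
  rw [← summable_nat_add_iff 1]
  refine Summable.of_nonneg_of_le (fun n => by positivity) (fun n => ?_) (hx.mul_left (C ^ 2))
  have h1 : shiftSeq A x (n + 1) = Matrix.toEuclideanCLM (n := Fin p) (𝕜 := ℂ) (A n) (x n) := rfl
  rw [h1, ← mul_pow]
  refine pow_le_pow_left₀ (norm_nonneg _) ?_ 2
  exact (ContinuousLinearMap.le_opNorm _ _).trans
    (mul_le_mul_of_nonneg_right (hC n) (norm_nonneg _))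

theorem shiftSeq_norm {p : ℕ} (A : ℕ → Matrix (Fin p) (Fin p) ℂ) (hA : BoundedWeights A) :
    ∃ C : ℝ, ∀ x : SeqSpace p,
      ‖(⟨shiftSeq A x, shiftSeq_mem A hA x⟩ : SeqSpace p)‖ ≤ C * ‖x‖ := by
  obtain ⟨C, hC⟩ := hA
  have hC0 : 0 ≤ C := (norm_nonneg _).trans (hC 0)
  refine ⟨C, fun x => ?_⟩
  refine lp.norm_le_of_forall_sum_le (p := 2) (by simp) (by positivity) (fun s => ?_)
  simp only [ENNReal.toReal_ofNat, Real.rpow_ofNat]
  have hx := (lp.memℓp x).summable (by simp)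
  simp only [ENNReal.toReal_ofNat, Real.rpow_ofNat] at hx
  have hy := (shiftSeq_mem A ⟨C, hC⟩ x).summable (by simp)
  simp only [ENNReal.toReal_ofNat, Real.rpow_ofNat] at hy
  have hnx := lp.norm_rpow_eq_tsum (p := 2) (by simp) x
  simp only [ENNReal.toReal_ofNat, Real.rpow_ofNat] at hnx
  calc ∑ i ∈ s, ‖shiftSeq A x i‖ ^ 2 ≤ ∑' i, ‖shiftSeq A x i‖ ^ 2 :=
        hy.sum_le_tsum s (fun i _ => by positivity)
    _ = ∑' i, ‖shiftSeq A x (i + 1)‖ ^ 2 := by
        rw [hy.tsum_eq_zero_add]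
        simp [shiftSeq]
    _ ≤ ∑' i, C ^ 2 * ‖x i‖ ^ 2 := by
        refine Summable.tsum_le_tsum (fun n => ?_) ((summable_nat_add_iff 1).mpr hy)
          (hx.mul_left (C ^ 2))
        have h1 : shiftSeq A x (n + 1) =
            Matrix.toEuclideanCLM (n := Fin p) (𝕜 := ℂ) (A n) (x n) := rfl
        rw [h1, ← mul_pow]
        refine pow_le_pow_left₀ (norm_nonneg _) ?_ 2
        exact (ContinuousLinearMap.le_opNorm _ _).trans
          (mul_le_mul_of_nonneg_right (hC n) (norm_nonneg _))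
    _ = (C * ‖x‖) ^ 2 := by
        rw [tsum_mul_left, mul_pow, hnx]

/-- The matrix-valued weighted shift `(x₀, x₁, ...) ↦ (0, A₀ x₀, A₁ x₁, ...)` on `ℓ²(ℂ^p)`. -/
noncomputable def weightedShift {p : ℕ} (A : ℕ → Matrix (Fin p) (Fin p) ℂ)
    (hA : BoundedWeights A) : SeqSpace p →L[ℂ] SeqSpace p :=
  LinearMap.mkContinuousOfExistsBound
    { toFun := fun x => ⟨shiftSeq A x, shiftSeq_mem A hA x⟩
      map_add' := by
        intro x y
        apply lp.ext
        funext n
        rcases n with _ | n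
        · exact (add_zero (0 : EuclideanSpace ℂ (Fin p))).symm
        · exact map_add (Matrix.toEuclideanCLM (n := Fin p) (𝕜 := ℂ) (A n)) (x n) (y n)
      map_smul' := by
        intro c x
        apply lp.ext
        funext n
        rcases n with _ | n
        · exact (smul_zero (A := EuclideanSpace ℂ (Fin p)) c).symm
        · exact map_smul (Matrix.toEuclideanCLM (n := Fin p) (𝕜 := ℂ) (A n)) c (x n) }
    (shiftSeq_norm A hA)

theorem isMatrixShift_weightedShift {p : ℕ} (A : ℕ → Matrix (Fin p) (Fin p) ℂ)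
    (hA : BoundedWeights A) : IsMatrixShift A (weightedShift A hA) :=
  fun _ => ⟨rfl, fun _ => rfl⟩

end Pool.Agent.W_MP_c6f870_an
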