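import Pool.Agent.W_MP_c6f870_an.Core

open scoped InnerProductSpace ENNReal

namespace Pool.Agent.W_MP_c6f870_an

variable {E : Type*} [NormedAddCommGroup E] [InnerProductSpace ℂ E] [CompleteSpace E]
variable {A : ℕ → E →L[ℂ] E} {T : lp (fun _ : ℕ => E) 2 →L[ℂ] lp (fun _ : ℕ => E) 2}

set_option linter.unusedSectionVars false

/-- five vectors placed at levels `j, ..., j+4` -/
def fiveFun (j : ℕ) (c0 c1 c2 c3 c4 : E) (n : ℕ) : E :=
  if n = j then c0 else if n = j + 1 then c1 else if n = j + 2 then c2 else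
    if n = j + 3 then c3 else if n = j + 4 then c4 else 0

theorem fiveFun_mem (j : ℕ) (c0 c1 c2 c3 c4 : E) :
    Memℓp (fiveFun j c0 c1 c2 c3 c4) 2 := by
  have h0 : Memℓp (fiveFun j c0 c1 c2 c3 c4) 0 := by
    apply memℓp_zero
    apply Set.Finite.subset (Finset.finite_toSet (Finset.range (j + 5)))
    intro n hn
    simp only [Finset.coe_range, Set.mem_Iio]
    by_contra hcon
    apply hn
    unfold fiveFun
    rw [if_neg (by omega), if_neg (by omega), if_neg (by omega), if_neg (by omega),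
      if_neg (by omega)]
  exact h0.of_exponent_ge (by simp)

/-- the corresponding element of the direct sum -/
noncomputable def five (j : ℕ) (c0 c1 c2 c3 c4 : E) : lp (fun _ : ℕ => E) 2 :=
  ⟨fiveFun j c0 c1 c2 c3 c4, fiveFun_mem j c0 c1 c2 c3 c4⟩

section five
variable (j : ℕ) (c0 c1 c2 c3 c4 : E)

theorem five_0 : five j c0 c1 c2 c3 c4 j = c0 := by
  show fiveFun j c0 c1 c2 c3 c4 j = c0
  unfold fiveFun; rw [if_pos rfl]

theorem five_1 : five j c0 c1 c2 c3 c4 (j + 1) = c1 := by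
  show fiveFun j c0 c1 c2 c3 c4 (j + 1) = c1
  unfold fiveFun; rw [if_neg (by omega), if_pos rfl]

theorem five_2 : five j c0 c1 c2 c3 c4 (j + 2) = c2 := by
  show fiveFun j c0 c1 c2 c3 c4 (j + 2) = c2
  unfold fiveFun; rw [if_neg (by omega), if_neg (by omega), if_pos rfl]

theorem five_3 : five j c0 c1 c2 c3 c4 (j + 3) = c3 := by
  show fiveFun j c0 c1 c2 c3 c4 (j + 3) = c3
  unfold fiveFun; rw [if_neg (by omega), if_neg (by omega), if_neg (by omega), if_pos rfl]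

theorem five_4 : five j c0 c1 c2 c3 c4 (j + 4) = c4 := by
  show fiveFun j c0 c1 c2 c3 c4 (j + 4) = c4
  unfold fiveFun
  rw [if_neg (by omega), if_neg (by omega), if_neg (by omega), if_neg (by omega), if_pos rfl]

theorem five_lt {n : ℕ} (h : n < j) : five j c0 c1 c2 c3 c4 n = 0 := by
  show fiveFun j c0 c1 c2 c3 c4 n = 0
  unfold fiveFun
  rw [if_neg (by omega), if_neg (by omega), if_neg (by omega), if_neg (by omega),
    if_neg (by omega)]

theorem five_gt {n : ℕ} (h : j + 4 < n) : five j c0 c1 c2 c3 c4 n = 0 := by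
  show fiveFun j c0 c1 c2 c3 c4 n = 0
  unfold fiveFun
  rw [if_neg (by omega), if_neg (by omega), if_neg (by omega), if_neg (by omega),
    if_neg (by omega)]

end five

theorem norm_sq_add_smul (a b : E) (t : ℝ) :
    ‖a + (t : ℂ) • b‖ ^ 2 = ‖a‖ ^ 2 + 2 * t * (⟪a, b⟫_ℂ).re + t ^ 2 * ‖b‖ ^ 2 := by
  have h := norm_add_sq (𝕜 := ℂ) a ((t : ℂ) • b)
  rw [h, inner_smul_right, norm_smul, mul_pow]
  simp only [Complex.norm_real, Real.norm_eq_abs, sq_abs]
  simp
  ring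

/-- the residual vector at level `j - 1` -/
def rvec (A : ℕ → E →L[ℂ] E) (h w : E) : ℕ → E
  | 0 => 0
  | i + 1 => A i (h - A (i + 1) w)

theorem rvec_zero (h w : E) : rvec A h w 0 = 0 := rfl

theorem rvec_succ (h w : E) (i : ℕ) : rvec A h w (i + 1) = A i (h - A (i + 1) w) := rfl

/-- The quadratic form on the test vector. -/
theorem key (hT : IsShift A T) (hA : ∀ n, ∀ v w, ⟪A n v, w⟫_ℂ = ⟪v, A n w⟫_ℂ)
    (hyp : ∀ s : ℝ, ∀ x, ‖(star (T + (s : ℂ) • T ^ 2)) x‖ ^ 2 ≤ ‖(T + (s : ℂ) • T ^ 2) x‖ ^ 2)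
    (j : ℕ) (u w w2 w3 h : E)
    (hu1 : A (j + 1) u = w) (hu2 : A (j + 2) u = w)
    (hw1 : A (j + 1) w = w2) (hw2 : A (j + 2) w = w2)
    (h31 : A (j + 1) w2 = w3) (h32 : A (j + 2) w2 = w3)
    (hh : A j h = w3) :
    A (j + 3) (A (j + 3) w) = w3 ∧ ∀ i, j = i + 1 → A i (h - A j w) = 0 := by
  set B2w : E := A (j + 3) (A (j + 3) w) with hB2w
  set r : E := rvec A h w j with hr
  set Z : E := A (j + 5) (A (j + 4) (A (j + 3) w)) with hZ
  set C1 : E := A (j + 1) w3 with hC1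
  set C2 : E := A (j + 2) B2w with hC2
  have main : ∀ s : ℝ, s ^ 4 * ‖r‖ ^ 2 + ‖w + ((-s ^ 2 : ℝ) : ℂ) • w3‖ ^ 2 +
      s ^ 2 * ‖w2 + ((-s ^ 2 : ℝ) : ℂ) • C2‖ ^ 2 + s ^ 4 * ‖B2w‖ ^ 2 ≤
      s ^ 4 * ‖w3‖ ^ 2 + s ^ 2 * ‖w2 + ((-s ^ 2 : ℝ) : ℂ) • C1‖ ^ 2 +
        ‖w + ((-s ^ 2 : ℝ) : ℂ) • w3‖ ^ 2 + s ^ 6 * ‖Z‖ ^ 2 := by
    intro s
    set x : lp (fun _ : ℕ => E) 2 := five j (((s ^ 2 : ℝ) : ℂ) • h) (((-s : ℝ) : ℂ) • w) u
      (((-s : ℝ) : ℂ) • w) (((s ^ 2 : ℝ) : ℂ) • A (j + 3) w) with hx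
    have hS := hyp s x
    -- coordinates of S x
    have a1 : (T + (s : ℂ) • T ^ 2) x (j + 1) = ((s ^ 2 : ℝ) : ℂ) • w3 := by
      rcases j with _ | m
      · rw [zero_add, hT.quad_one]
        rw [hx]
        rw [five_0]
        rw [map_smul, hh]
      · rw [show m + 1 + 1 = m + 2 from rfl, hT.quad_succ]
        rw [hx, five_0, five_lt _ _ _ _ _ _ (Nat.lt_succ_self m), map_zero, smul_zero, add_zero,
          map_smul, hh]
    have a2 : (T + (s : ℂ) • T ^ 2) x (j + 2) =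
        ((-s : ℝ) : ℂ) • (w2 + ((-s ^ 2 : ℝ) : ℂ) • C1) := by
      rw [hT.quad_succ, hx, five_0, five_1, map_smul, hh, map_add, map_smul, map_smul, map_smul,
        hw1, smul_add, smul_smul, smul_smul]
      congr 2
      push_cast; ring
    have a3 : (T + (s : ℂ) • T ^ 2) x (j + 3) = w + ((-s ^ 2 : ℝ) : ℂ) • w3 := by
      have e := hT.quad_succ (s : ℂ) x (j + 1)
      rw [show j + 1 + 2 = j + 3 from rfl, show j + 1 + 1 = j + 2 from rfl] at e
      rw [e, hx, five_1, five_2, map_add, hu2, map_smul, map_smul, map_smul, hw1, h32, smul_smul]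
      congr 2
      push_cast; ring
    have a4 : (T + (s : ℂ) • T ^ 2) x (j + 4) = 0 := by
      have e := hT.quad_succ (s : ℂ) x (j + 2)
      rw [show j + 2 + 2 = j + 4 from rfl, show j + 2 + 1 = j + 3 from rfl] at e
      rw [e, hx, five_2, five_3, hu2, ← add_smul]
      simp
    have a5 : (T + (s : ℂ) • T ^ 2) x (j + 5) = 0 := by
      have e := hT.quad_succ (s : ℂ) x (j + 3)
      rw [show j + 3 + 2 = j + 5 from rfl, show j + 3 + 1 = j + 4 from rfl] at e
      rw [e, hx, five_3, five_4, map_smul, smul_smul, ← add_smul]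
      have : (((s ^ 2 : ℝ) : ℂ) + (s : ℂ) * ((-s : ℝ) : ℂ)) = 0 := by push_cast; ring
      rw [this, zero_smul, map_zero]
    have a6 : (T + (s : ℂ) • T ^ 2) x (j + 6) = ((s ^ 3 : ℝ) : ℂ) • Z := by
      have e := hT.quad_succ (s : ℂ) x (j + 4)
      rw [show j + 4 + 2 = j + 6 from rfl, show j + 4 + 1 = j + 5 from rfl] at e
      rw [e, hx, five_4, five_gt _ _ _ _ _ _ (by omega), zero_add, map_smul, map_smul, map_smul,
        smul_smul]
      congr 2
      push_cast; ring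
    have a7 : ∀ n, n ∉ ({j + 1, j + 2, j + 3, j + 6} : Finset ℕ) →
        (T + (s : ℂ) • T ^ 2) x n = 0 := by
      intro n hn
      simp only [Finset.mem_insert, Finset.mem_singleton, not_or] at hn
      obtain ⟨n1, n2, n3, n6⟩ := hn
      rcases n with _ | _ | n
      · exact hT.quad_zero _ _
      · rw [zero_add, hT.quad_one, hx]
        rcases Nat.eq_zero_or_pos j with hj | hj
        · omega
        · rw [five_lt _ _ _ _ _ _ hj, map_zero]
      · by_cases h4 : n + 2 = j + 4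
        · rw [show n + 1 + 1 = n + 2 from rfl, h4]; exact a4
        · by_cases h5 : n + 2 = j + 5
          · rw [show n + 1 + 1 = n + 2 from rfl, h5]; exact a5
          · rw [show n + 1 + 1 = n + 2 from rfl, hT.quad_succ, hx]
            by_cases hlt : n + 2 < j + 1
            · rw [five_lt _ _ _ _ _ _ (by omega), five_lt _ _ _ _ _ _ (by omega), map_zero,
                smul_zero, add_zero, map_zero]
            · rw [five_gt _ _ _ _ _ _ (by omega), five_gt _ _ _ _ _ _ (by omega), map_zero,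
                smul_zero, add_zero, map_zero]
    have nS : ‖(T + (s : ℂ) • T ^ 2) x‖ ^ 2 =
        s ^ 4 * ‖w3‖ ^ 2 + s ^ 2 * ‖w2 + ((-s ^ 2 : ℝ) : ℂ) • C1‖ ^ 2 +
        ‖w + ((-s ^ 2 : ℝ) : ℂ) • w3‖ ^ 2 + s ^ 6 * ‖Z‖ ^ 2 := by
      rw [norm_sq_eq_sum _ _ a7]
      rw [Finset.sum_insert (by simp), Finset.sum_insert (by simp), Finset.sum_insert (by simp),
        Finset.sum_singleton, a1, a2, a3, a6, norm_smul, norm_smul, norm_smul]
      simp only [Complex.norm_real, Real.norm_eq_abs, mul_pow, sq_abs]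
      ring
    -- coordinates of the adjoint
    have b1 : (star (T + (s : ℂ) • T ^ 2)) x (j + 1) = w + ((-s ^ 2 : ℝ) : ℂ) • w3 := by
      rw [hT.quad_star hA, show j + 1 + 1 = j + 2 from rfl, show j + 1 + 2 = j + 3 from rfl, hx,
        five_2, five_3, map_add, hu1, map_smul, map_smul, map_smul, hw2, h31, smul_smul]
      congr 2
      push_cast; ring
    have b2 : (star (T + (s : ℂ) • T ^ 2)) x (j + 2) =
        ((-s : ℝ) : ℂ) • (w2 + ((-s ^ 2 : ℝ) : ℂ) • C2) := by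
      rw [hT.quad_star hA, show j + 2 + 1 = j + 3 from rfl, show j + 2 + 2 = j + 4 from rfl, hx,
        five_3, five_4, map_add, map_smul, map_smul, map_smul, map_smul, hw2, smul_add, smul_smul,
        smul_smul]
      congr 2
      push_cast; ring
    have b3 : (star (T + (s : ℂ) • T ^ 2)) x (j + 3) = ((s ^ 2 : ℝ) : ℂ) • B2w := by
      rw [hT.quad_star hA, show j + 3 + 1 = j + 4 from rfl, show j + 3 + 2 = j + 5 from rfl, hx,
        five_4, five_gt _ _ _ _ _ _ (by omega), map_zero, smul_zero, add_zero, map_smul]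
    have nSs : s ^ 4 * ‖r‖ ^ 2 + ‖w + ((-s ^ 2 : ℝ) : ℂ) • w3‖ ^ 2 +
      s ^ 2 * ‖w2 + ((-s ^ 2 : ℝ) : ℂ) • C2‖ ^ 2 + s ^ 4 * ‖B2w‖ ^ 2 ≤
        ‖(star (T + (s : ℂ) • T ^ 2)) x‖ ^ 2 := by
      rcases j with _ | i
      · refine le_trans (le_of_eq ?_) (sum_le_norm_sq _ ({0 + 1, 0 + 2, 0 + 3} : Finset ℕ))
        rw [Finset.sum_insert (by simp), Finset.sum_insert (by simp), Finset.sum_singleton, b1, b2,
          b3, norm_smul, norm_smul, hr, rvec_zero]
        simp only [Complex.norm_real, Real.norm_eq_abs, mul_pow, sq_abs, norm_zero]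
        ring
      · have b0 : (star (T + (s : ℂ) • T ^ 2)) x i = ((s ^ 2 : ℝ) : ℂ) • r := by
          rw [hT.quad_star hA, show i + 2 = i + 1 + 1 from rfl, hx, five_0, five_1, hr, rvec_succ]
          rw [map_smul, map_add, map_smul, map_smul, map_smul, map_sub, smul_sub, smul_smul,
            sub_eq_add_neg, ← neg_smul]
          congr 2
          push_cast; ring
        refine le_trans (le_of_eq ?_)
          (sum_le_norm_sq _ ({i, i + 1 + 1, i + 1 + 2, i + 1 + 3} : Finset ℕ))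
        rw [Finset.sum_insert (by simp; omega), Finset.sum_insert (by simp),
          Finset.sum_insert (by simp),
          Finset.sum_singleton, b0, b1, b2, b3, norm_smul, norm_smul, norm_smul]
        simp only [Complex.norm_real, Real.norm_eq_abs, mul_pow, sq_abs]
        ring
    rw [← nS]
    exact nSs.trans hS
  -- expand
  have i1 : (⟪w2, C1⟫_ℂ).re = ‖w3‖ ^ 2 := by
    rw [hC1, ← hA, h31, inner_self_eq_norm_sq_to_K]
    norm_cast
  have i2 : ⟪w2, C2⟫_ℂ = ⟪w3, B2w⟫_ℂ := by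
    rw [hC2, ← hA, h32]
  have i3 : ‖w3 - B2w‖ ^ 2 = ‖w3‖ ^ 2 - 2 * (⟪w3, B2w⟫_ℂ).re + ‖B2w‖ ^ 2 := by
    have := norm_sub_sq (𝕜 := ℂ) w3 B2w
    simpa using this
  have X : ∀ s : ℝ, 0 < s → ‖r‖ ^ 2 + ‖w3 - B2w‖ ^ 2 ≤
      s ^ 2 * (‖C1‖ ^ 2 + ‖Z‖ ^ 2) := by
    intro s hs
    have m := main s
    rw [norm_sq_add_smul w2 C1, norm_sq_add_smul w2 C2, i1, i2] at m
    have hs4 : 0 < s ^ 4 := by positivity
    have hC2n : 0 ≤ s ^ 6 * ‖C2‖ ^ 2 := by positivity
    have : s ^ 4 * (‖r‖ ^ 2 + ‖w3 - B2w‖ ^ 2) ≤ s ^ 4 * (s ^ 2 * (‖C1‖ ^ 2 + ‖Z‖ ^ 2)) := by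
      rw [i3]
      nlinarith [m, hC2n]
    exact le_of_mul_le_mul_left this hs4
  have X0 : ‖r‖ ^ 2 + ‖w3 - B2w‖ ^ 2 ≤ 0 := by
    by_contra hcon
    push Not at hcon
    set q := ‖r‖ ^ 2 + ‖w3 - B2w‖ ^ 2 with hq
    set Y := ‖C1‖ ^ 2 + ‖Z‖ ^ 2 with hY
    have hY0 : 0 ≤ Y := by positivity
    have hd : 0 < q / (2 * (Y + 1)) := by positivity
    have := X (Real.sqrt (q / (2 * (Y + 1)))) (Real.sqrt_pos.mpr hd)
    rw [Real.sq_sqrt hd.le] at this
    have h2 : q / (2 * (Y + 1)) * Y < q := by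
      rw [div_mul_eq_mul_div, div_lt_iff₀ (by positivity)]
      nlinarith
    linarith
  have hr0 : ‖r‖ ^ 2 = 0 := le_antisymm (by nlinarith [sq_nonneg ‖w3 - B2w‖]) (by positivity)
  have hb0 : ‖w3 - B2w‖ ^ 2 = 0 := le_antisymm (by nlinarith [sq_nonneg ‖r‖]) (by positivity)
  constructor
  · have : w3 - B2w = 0 := by simpa using hb0
    exact (sub_eq_zero.mp this).symm
  · intro i hi
    subst hi
    have : r = 0 := by simpa using hr0
    exact this

end Pool.Agent.W_MP_c6f870_an
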