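import Pool.Agent.W_MP_c6f870_an.Key

open scoped InnerProductSpace ENNReal

namespace Pool.Agent.W_MP_c6f870_an

variable {E : Type*} [NormedAddCommGroup E] [InnerProductSpace ℂ E] [CompleteSpace E]
variable {A : ℕ → E →L[ℂ] E} {T : lp (fun _ : ℕ => E) 2 →L[ℂ] lp (fun _ : ℕ => E) 2}

set_option linter.unusedSectionVars false

theorem step_norm (hT : IsShift A T) (hA : ∀ n, ∀ v w, ⟪A n v, w⟫_ℂ = ⟪v, A n w⟫_ℂ)
    (hyp : ∀ s : ℝ, ∀ x, ‖(star (T + (s : ℂ) • T ^ 2)) x‖ ^ 2 ≤ ‖(T + (s : ℂ) • T ^ 2) x‖ ^ 2)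
    (n : ℕ) (v : E) : ‖A n v‖ ^ 2 ≤ ‖A (n + 1) v‖ ^ 2 := by
  have h := hyp 0 (lp.single 2 (n + 1) v)
  have e1 : ((0 : ℝ) : ℂ) • T ^ 2 = 0 := by simp
  rw [e1, add_zero] at h
  have h1 : ‖A n v‖ ^ 2 ≤ ‖(star T) (lp.single 2 (n + 1) v)‖ ^ 2 := by
    have := sum_le_norm_sq ((star T) (lp.single 2 (n + 1) v)) {n}
    rw [Finset.sum_singleton, hT.adjoint hA, lp.single_apply_self] at this
    exact this
  have h2 : ‖T (lp.single 2 (n + 1) v)‖ ^ 2 = ‖A (n + 1) v‖ ^ 2 := by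
    rw [norm_sq_eq_sum _ ({n + 1 + 1} : Finset ℕ)]
    · rw [Finset.sum_singleton, hT.succ, lp.single_apply_self]
    · intro m hm
      rw [Finset.mem_singleton] at hm
      rcases m with _ | m
      · exact hT.zero _
      · rw [hT.succ, lp.single_apply_ne _ _ _ (by omega), map_zero]
  rw [h2] at h
  exact h1.trans h

theorem step_invariant (hA : ∀ n, ∀ v w, ⟪A n v, w⟫_ℂ = ⟪v, A n w⟫_ℂ)
    (hn : ∀ n v, ‖A n v‖ ^ 2 ≤ ‖A (n + 1) v‖ ^ 2)
    (n : ℕ) (v : E) (hv : A n v = A (n + 1) v) :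
    A n (A n v) = A (n + 1) (A n v) := by
  set z : E := A (n + 1) (A n v) - A n (A n v) with hz
  have e1 : (⟪A (n + 1) v, A (n + 1) z⟫_ℂ).re - (⟪A n v, A n z⟫_ℂ).re = ‖z‖ ^ 2 := by
    have : ⟪A (n + 1) v, A (n + 1) z⟫_ℂ - ⟪A n v, A n z⟫_ℂ = ⟪z, z⟫_ℂ := by
      rw [← hA (n + 1), ← hA n, ← inner_sub_left, ← hv]
    have h2 := congrArg Complex.re this
    rw [Complex.sub_re] at h2
    rw [h2]
    have := inner_self_eq_norm_sq (𝕜 := ℂ) z
    simpa using this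
  have key : ∀ t : ℝ, 0 ≤ 2 * t * ‖z‖ ^ 2 + t ^ 2 * (‖A (n + 1) z‖ ^ 2 - ‖A n z‖ ^ 2) := by
    intro t
    have h := hn n (v + (t : ℂ) • z)
    rw [map_add, map_add, map_smul, map_smul, norm_sq_add_smul, norm_sq_add_smul, ← hv] at h
    rw [← hv] at e1
    have : t * ‖z‖ ^ 2 = t * ((⟪A n v, A (n + 1) z⟫_ℂ).re - (⟪A n v, A n z⟫_ℂ).re) := by
      rw [e1]
    nlinarith [h, this]
  set c := ‖A (n + 1) z‖ ^ 2 - ‖A n z‖ ^ 2 with hc
  have hc0 : 0 ≤ c := by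
    have := hn n z
    linarith
  have hz0 : ‖z‖ ^ 2 ≤ 0 := by
    by_contra hcon
    push Not at hcon
    have := key (-(‖z‖ ^ 2 / (c + 1)))
    have hc1 : 0 < c + 1 := by linarith
    have e : 2 * -(‖z‖ ^ 2 / (c + 1)) * ‖z‖ ^ 2 + (-(‖z‖ ^ 2 / (c + 1))) ^ 2 * c =
        (‖z‖ ^ 2) ^ 2 / (c + 1) * (c / (c + 1) - 2) := by
      field_simp
      ring
    rw [e] at this
    have h1 : c / (c + 1) - 2 < 0 := by
      have : c / (c + 1) < 1 := by
        rw [div_lt_one hc1]; linarith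
      linarith
    have h2 : 0 < (‖z‖ ^ 2) ^ 2 / (c + 1) := by positivity
    nlinarith
  have : z = 0 := by
    have h0 : ‖z‖ ^ 2 = 0 := le_antisymm hz0 (by positivity)
    simpa using h0
  exact (sub_eq_zero.mp this).symm

theorem sqrt_eig (B : E →L[ℂ] E) (hpos : ∀ v, 0 ≤ (⟪B v, v⟫_ℂ).re) (e : E) (β : ℝ) (hβ : 0 < β)
    (h : B (B e) = ((β ^ 2 : ℝ) : ℂ) • e) : B e = (β : ℂ) • e := by
  set z : E := B e - (β : ℂ) • e with hz
  have h1 : B z = -((β : ℂ) • z) := by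
    rw [hz, map_sub, map_smul, h, smul_sub, smul_smul]
    push_cast
    rw [pow_two]
    abel
  have h2 := hpos z
  rw [h1, inner_neg_left, inner_smul_left] at h2
  have h3 := inner_self_eq_norm_sq (𝕜 := ℂ) z
  have h4 : (starRingEnd ℂ (β : ℂ) * ⟪z, z⟫_ℂ).re = β * ‖z‖ ^ 2 := by
    rw [Complex.conj_ofReal, Complex.re_ofReal_mul]
    congr 1
  rw [Complex.neg_re, h4] at h2
  have h5 : ‖z‖ ^ 2 ≤ 0 := by nlinarith
  have : z = 0 := by
    have h0 : ‖z‖ ^ 2 = 0 := le_antisymm h5 (by positivity)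
    simpa using h0
  exact sub_eq_zero.mp this

theorem eig_step (hT : IsShift A T) (hA : ∀ n, ∀ v w, ⟪A n v, w⟫_ℂ = ⟪v, A n w⟫_ℂ)
    (hpos : ∀ n v, 0 ≤ (⟪A n v, v⟫_ℂ).re)
    (hbij : ∀ n, Function.Bijective (A n))
    (hyp : ∀ s : ℝ, ∀ x, ‖(star (T + (s : ℂ) • T ^ 2)) x‖ ^ 2 ≤ ‖(T + (s : ℂ) • T ^ 2) x‖ ^ 2)
    (j : ℕ) (e : E) (β : ℝ) (hβ : 0 < β) (h1 : A (j + 1) e = (β : ℂ) • e)
    (h2 : A (j + 2) e = (β : ℂ) • e) :
    A (j + 3) e = (β : ℂ) • e ∧ ∀ i, j = i + 1 → A j e = (β : ℂ) • e := by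
  obtain ⟨h, hh⟩ := (hbij j).2 (((β ^ 3 : ℝ) : ℂ) • e)
  have hβ0 : (β : ℂ) ≠ 0 := by exact_mod_cast hβ.ne'
  obtain ⟨k1, k2⟩ := key hT hA hyp j e ((β : ℂ) • e) (((β ^ 2 : ℝ) : ℂ) • e) (((β ^ 3 : ℝ) : ℂ) • e)
    h h1 h2 (by rw [map_smul, h1, smul_smul]; push_cast; rw [pow_two])
    (by rw [map_smul, h2, smul_smul]; push_cast; rw [pow_two])
    (by rw [map_smul, h1, smul_smul]; push_cast; congr 1)
    (by rw [map_smul, h2, smul_smul]; push_cast; congr 1) hh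
  constructor
  · apply sqrt_eig _ (hpos _) e β hβ
    rw [map_smul, map_smul] at k1
    have : ((β ^ 3 : ℝ) : ℂ) • e = (β : ℂ) • (((β ^ 2 : ℝ) : ℂ) • e) := by
      rw [smul_smul]; push_cast; congr 1; ring
    rw [this] at k1
    exact smul_right_injective E hβ0 k1
  · intro i hi
    have k3 := k2 i hi
    have k4 : h - A j ((β : ℂ) • e) = 0 := (hbij i).1 (by rw [k3, map_zero])
    have k5 : h = A j ((β : ℂ) • e) := sub_eq_zero.mp k4
    rw [k5] at hh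
    apply sqrt_eig _ (hpos _) e β hβ
    rw [map_smul, map_smul] at hh
    have : ((β ^ 3 : ℝ) : ℂ) • e = (β : ℂ) • (((β ^ 2 : ℝ) : ℂ) • e) := by
      rw [smul_smul]; push_cast; congr 1; ring
    rw [this] at hh
    exact smul_right_injective E hβ0 hh

variable [FiniteDimensional ℂ E]

theorem propagate (hT : IsShift A T) (hA : ∀ n, ∀ v w, ⟪A n v, w⟫_ℂ = ⟪v, A n w⟫_ℂ)
    (hpos : ∀ n v, 0 ≤ (⟪A n v, v⟫_ℂ).re)
    (hbij : ∀ n, Function.Bijective (A n))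
    (hyp : ∀ s : ℝ, ∀ x, ‖(star (T + (s : ℂ) • T ^ 2)) x‖ ^ 2 ≤ ‖(T + (s : ℂ) • T ^ 2) x‖ ^ 2)
    (j : ℕ) (x : E) (hx : A (j + 1) x = A (j + 2) x) :
    A (j + 2) x = A (j + 3) x ∧ ∀ i, j = i + 1 → A j x = A (j + 1) x := by
  have hn := step_norm hT hA hyp
  set p : Submodule ℂ E := LinearMap.eqLocus (A (j + 1) : E →ₗ[ℂ] E) (A (j + 2) : E →ₗ[ℂ] E)
    with hp
  set f : Module.End ℂ E := (A (j + 1) : E →ₗ[ℂ] E) with hf
  have hmem : ∀ v, v ∈ p ↔ A (j + 1) v = A (j + 2) v := fun v => LinearMap.mem_eqLocus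
  have hsym : f.IsSymmetric := fun v w => hA (j + 1) v w
  have hinv : ∀ v ∈ p, f v ∈ p := by
    intro v hv
    rw [hmem] at hv ⊢
    exact step_invariant hA hn (j + 1) v hv
  have htop : ⨆ μ, f.genEigenspace μ 1 = ⊤ :=
    Submodule.orthogonal_eq_bot_iff.mp hsym.orthogonalComplement_iSup_eigenspaces_eq_bot
  have hdec := Submodule.eq_iSup_inf_genEigenspace (p := p) (f := f) 1 hinv htop
  have heig : ∀ μ : ℂ, ∀ e ∈ p ⊓ f.genEigenspace μ 1,
      A (j + 2) e = A (j + 3) e ∧ ∀ i, j = i + 1 → A j e = A (j + 1) e := by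
    intro μ e he
    obtain ⟨he1, he2⟩ := he
    by_cases he0 : e = 0
    · subst he0
      simp
    have he3 : A (j + 1) e = μ • e := Module.End.mem_eigenspace_iff.mp he2
    have hμ : Module.End.HasEigenvalue f μ :=
      Module.End.hasEigenvalue_of_hasEigenvector ⟨he2, he0⟩
    have hμr := hsym.conj_eigenvalue_eq_self hμ
    have hμ' : (μ.re : ℂ) = μ := Complex.conj_eq_iff_re.mp hμr
    have hb : 0 ≤ μ.re := by
      have h := hpos (j + 1) e
      rw [he3, inner_smul_left, hμr, ← hμ', Complex.re_ofReal_mul] at h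
      have h3 := inner_self_eq_norm_sq (𝕜 := ℂ) e
      have h4 : (⟪e, e⟫_ℂ).re = ‖e‖ ^ 2 := h3
      rw [h4] at h
      have h5 : 0 < ‖e‖ ^ 2 := by positivity
      exact nonneg_of_mul_nonneg_left h h5
    have hb' : 0 < μ.re := by
      rcases hb.lt_or_eq with h | h
      · exact h
      · exfalso
        rw [← hμ', ← h] at he3
        simp only [Complex.ofReal_zero, zero_smul] at he3
        exact he0 ((hbij (j + 1)).1 (by rw [he3, map_zero]))
    rw [← hμ'] at he3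
    have he4 : A (j + 2) e = (μ.re : ℂ) • e := by
      rw [← (hmem e).mp he1, he3]
    obtain ⟨k1, k2⟩ := eig_step hT hA hpos hbij hyp j e μ.re hb' he3 he4
    refine ⟨by rw [k1, he4], fun i hi => ?_⟩
    rw [k2 i hi, he3]
  have hxp : x ∈ ⨆ μ, p ⊓ f.genEigenspace μ 1 := by
    rw [← hdec]; exact (hmem x).mpr hx
  constructor
  · have hle : (⨆ μ, p ⊓ f.genEigenspace μ 1) ≤
        LinearMap.eqLocus (A (j + 2) : E →ₗ[ℂ] E) (A (j + 3) : E →ₗ[ℂ] E) :=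
      iSup_le fun μ e he => LinearMap.mem_eqLocus.mpr (heig μ e he).1
    exact LinearMap.mem_eqLocus.mp (hle hxp)
  · intro i hi
    have hle : (⨆ μ, p ⊓ f.genEigenspace μ 1) ≤
        LinearMap.eqLocus (A j : E →ₗ[ℂ] E) (A (j + 1) : E →ₗ[ℂ] E) :=
      iSup_le fun μ e he => LinearMap.mem_eqLocus.mpr ((heig μ e he).2 i hi)
    exact LinearMap.mem_eqLocus.mp (hle hxp)

theorem propagate_all (hT : IsShift A T) (hA : ∀ n, ∀ v w, ⟪A n v, w⟫_ℂ = ⟪v, A n w⟫_ℂ)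
    (hpos : ∀ n v, 0 ≤ (⟪A n v, v⟫_ℂ).re)
    (hbij : ∀ n, Function.Bijective (A n))
    (hyp : ∀ s : ℝ, ∀ x, ‖(star (T + (s : ℂ) • T ^ 2)) x‖ ^ 2 ≤ ‖(T + (s : ℂ) • T ^ 2) x‖ ^ 2)
    (k : ℕ) (hk : 1 ≤ k) (x : E) (hx : A k x = A (k + 1) x) (n : ℕ) (hn : 1 ≤ n) :
    A n x = A 1 x := by
  obtain ⟨j, rfl⟩ : ∃ j, k = j + 1 := ⟨k - 1, by omega⟩
  -- upward
  have up : ∀ m, A (j + 1 + m) x = A (j + 1 + m + 1) x := by
    intro m
    induction m with
    | zero => exact hx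
    | succ m ih =>
      have := (propagate hT hA hpos hbij hyp (j + m) x (by
        rw [show j + m + 1 = j + 1 + m by ring, show j + m + 2 = j + 1 + m + 1 by ring]
        exact ih)).1
      rw [show j + 1 + (m + 1) = j + m + 2 by ring, show j + m + 2 + 1 = j + m + 3 by ring]
      exact this
  have down : ∀ m, m ≤ j → A (j - m + 1) x = A (j - m + 2) x := by
    intro m
    induction m with
    | zero => intro _; exact hx
    | succ m ih =>
      intro hm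
      have h1 := ih (by omega)
      have := (propagate hT hA hpos hbij hyp (j - m) x h1).2 (j - (m + 1)) (by omega)
      rw [show j - (m + 1) + 1 = j - m by omega, show j - (m + 1) + 2 = j - m + 1 by omega]
      exact this
  have all : ∀ m, A (m + 1) x = A (m + 2) x := by
    intro m
    rcases le_total m j with h | h
    · have := down (j - m) (by omega)
      rw [show j - (j - m) = m by omega] at this
      exact this
    · have := up (m - j)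
      rw [show j + 1 + (m - j) = m + 1 by omega] at this
      exact this
  have fin : ∀ m, A (m + 1) x = A 1 x := by
    intro m
    induction m with
    | zero => rfl
    | succ m ih => rw [← ih, ← all m]
  obtain ⟨m, rfl⟩ : ∃ m, n = m + 1 := ⟨n - 1, by omega⟩
  exact fin m

end Pool.Agent.W_MP_c6f870_an
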